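import Mathlib
import Pool.Agent.Helper82.SU.Common
import Pool.Agent.Helper82.SU.Perm

/-!
# Generalised Fermat equations with `S`-unit coefficients: partners of a varying base in an arbitrary set of bases

Let `S` be a finite set of primes. Two integers `u` and `v` are called partners if `±u` and `±v` are two of the three
bases of an `S`-solution of `a x ^ p + b y ^ q = c z ^ r` with terms at most `exp (N ^ c)`; the coefficients, the
exponents (`1/p + 1/q + 1/r ≤ 1`) and the third base are free.

Common partners: `k` given positive integers `x_1, …, x_k`, no two of them multiplicatively dependent modulo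
`S`-units, have at most `N ^ (1 / 2 ^ k + δ)` common partners `n` with `|n| ≤ N`. The coefficients and exponents of
the `k` equations are independent of each other. Examples of such integers are different numbers prime to `S`
which are not perfect powers, and one further number composed of the primes of `S`, for example `1`.

Arbitrary sets: let `A` be ANY finite set of positive integers, pairwise multiplicatively independent modulo
`S`-units. For all but `N ^ (1 / 2 ^ k + δ)` of the integers `n`, `|n| ≤ N`, at most `k - 1 + |A| N ^ (- c)`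
elements of `A` are partners of `n`. So outside of a set of `N ^ δ` integers every integer has a bounded number of
partners in a given set of at most `N ^ c` integers, and the number of the pairs of partners in `A × B` is at most
`|A| |B| N ^ (- c')` for all `A` and all `B ⊆ [1, N]` with at least `N ^ δ` elements.

All this holds for the values `g(n)`, `|n| ≤ N`, of a nonconstant polynomial `g` of degree at most `N ^ c` in place of
the integers `n`, in particular for the integers of every interval or arithmetic progression of `N` terms, and it is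
uniform in the set `S`: the numbers `c` and `N₀` depend only on `k`, `δ` and the number of the primes in `S`.

Proof. There are few possible coefficients and exponents of `x_i` and `g(n)`. Third exponents with prime factors
`≥ R` only are covered by the theorem on power values of polynomials of the starting library (`N741.PB.primes_count`).
For given coefficients, exponents and small primes `r_i` in the third exponents, the polynomials
`P_i = b_i g ^ (m_i) + a_i x_i ^ (l_i)` are constant multiples of `r_i`-th powers at the common partners. Modulo a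
prime `p` these `n` are in at most `p / T + O(√p)` classes, where `T` is the product of the `r_i` dividing `p - 1`,
by Weil's bound for multiplicative characters of composite order (file `Helper82/FC/Weil.lean`, Stepanov's method):
each `P_i` has a simple root modulo `p` that is not a root of the others, as the numbers
`a_i x_i ^ (l_i) / b_i` are multiplicatively independent. The mean of `T` over the primes is at least `2 ^ k`, and
Gallagher's larger sieve gives the bound `N ^ (1 / 2 ^ k + δ)`. Arbitrary sets are treated by counting the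
`k`-subsets of the sets of partners.
-/

set_option autoImplicit false

namespace Pool.Agent.Results.MP_be1fae_nt.ArbitrarySetsOfBases

open Polynomial Pool.Agent.Helper82.SU

/-- `S`-solutions of `a x ^ p + b y ^ q = c z ^ r` (with `1/p + 1/q + 1/r ≤ 1`) -/
def Solution (S : Finset ℕ) (a b c x y z : ℤ) (p q r : ℕ) : Prop :=
  0 < p ∧ 0 < q ∧ 0 < r ∧ (1 : ℚ) / p + 1 / q + 1 / r ≤ 1 ∧ a * b * c ≠ 0 ∧
    (∀ l : ℕ, l.Prime → (l : ℤ) ∣ a * b * c → l ∈ S) ∧ x ≠ 0 ∧ y ≠ 0 ∧ z ≠ 0 ∧
    Int.gcd (a * x) (Int.gcd (b * y) (c * z)) = 1 ∧ a * x ^ p + b * y ^ q = c * z ^ r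

/-- `± u` and `± v` are two of the bases of an `S`-solution whose terms are at most `W` in absolute value -/
def Partner (S : Finset ℕ) (W : ℝ) (u v : ℤ) : Prop :=
  ∃ (a b c x y z : ℤ) (p q r : ℕ), Solution S a b c x y z p q r ∧
    |((a * x ^ p : ℤ) : ℝ)| ≤ W ∧ |((b * y ^ q : ℤ) : ℝ)| ≤ W ∧ |((c * z ^ r : ℤ) : ℝ)| ≤ W ∧
    ((|x| = |u| ∧ |y| = |v|) ∨ (|y| = |u| ∧ |x| = |v|) ∨ (|x| = |u| ∧ |z| = |v|) ∨
      (|z| = |u| ∧ |x| = |v|) ∨ (|y| = |u| ∧ |z| = |v|) ∨ (|z| = |u| ∧ |y| = |v|))

/-- no two elements of `A` are multiplicatively dependent modulo `S`-units: `e x ^ u ≠ f y ^ v` for nonzero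
integers `e`, `f` all of whose prime factors belong to `S` -/
def Independent (S A : Finset ℕ) : Prop :=
  ∀ x ∈ A, ∀ y ∈ A, x ≠ y → ∀ e f : ℤ, e * f ≠ 0 → (∀ l : ℕ, l.Prime → (l : ℤ) ∣ e * f → l ∈ S) →
    ∀ u v : ℕ, 0 < u → 0 < v → e * (x : ℤ) ^ u ≠ f * (y : ℤ) ^ v

lemma part_of {S : Finset ℕ} {W : ℝ} {x : ℕ} {y : ℤ} (h : Partner S W (x : ℤ) y) :
    SPart S W x y := by
  obtain ⟨a, b, k, x', y', z, p, q, r, ⟨hp, hq, hr, hle, habc, hSS, hx, hy, hz, hg, he⟩,
      t1, t2, t3, h2⟩ := h
  obtain ⟨a', b', c', w, l', m', r', s1, -, s3, s4, s5⟩ :=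
      (sol_mk hp hq hr hle habc hSS hx hy hz hg he).pair t1 t2 t3 (C := fun _ => True)
        (u := (x : ℤ)) (v := y) (by simpa only [and_true] using h2)
  exact ⟨a', b', c', w, l', m', r', s1, s3, s4, s5⟩

/-- For all `k ≥ 1`, `s` and `δ > 0` there is `c > 0` such that for all large `N`, all sets `S` of at most `s` primes
(of any size), all nonconstant integer polynomials `g` of degree at most `N ^ c`, and all sets `A` of positive
integers, pairwise multiplicatively independent modulo `S`-units, at most `N ^ (1 / 2 ^ k + δ)` of the integers `n`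
with `|n| ≤ N` are such that more than `k - 1 + |A| N ^ (- c)` elements of `A` are partners of `g(n)`: two bases of
an `S`-solution with terms at most `exp (N ^ c)`. -/
theorem result (k s : ℕ) (hk : 1 ≤ k) (δ : ℝ) (hδ : 0 < δ) : ∃ c : ℝ, 0 < c ∧ ∃ N₀ : ℕ,
    ∀ N : ℕ, N₀ ≤ N → ∀ S : Finset ℕ, S.card ≤ s → ∀ g : ℤ[X], 0 < g.natDegree →
      (g.natDegree : ℝ) ≤ (N : ℝ) ^ c → ∀ A : Finset ℕ, (∀ x ∈ A, 0 < x) → Independent S A →
        ({n : ℤ | |n| ≤ N ∧ (k : ℝ) - 1 + A.card * (N : ℝ) ^ (-c) <
          ({x : ℕ | x ∈ A ∧ Partner S (Real.exp ((N : ℝ) ^ c)) x (g.eval n)}.ncard : ℝ)}.ncard : ℝ) ≤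
            (N : ℝ) ^ (1 / (2 : ℝ) ^ k + δ) := by
  classical
  obtain ⟨c, hc, N₀, h⟩ := smany k s hk δ hδ
  refine ⟨c, hc, N₀, fun N hN S hS g hg hgd A hA hind => ?_⟩
  have hfin : {n : ℤ | |n| ≤ N ∧ (k : ℝ) - 1 + A.card * (N : ℝ) ^ (-c) <
      ({x : ℕ | x ∈ A ∧ Partner S (Real.exp ((N : ℝ) ^ c)) x (g.eval n)}.ncard : ℝ)}.Finite := by
    refine (Set.finite_Icc (-(N : ℤ)) N).subset ?_
    rintro n ⟨h1, -⟩
    exact Set.mem_Icc.2 (abs_le.1 h1)
  rw [Set.ncard_eq_toFinset_card _ hfin]
  refine h N hN S hS g hg hgd A hA ?_ hfin.toFinset fun n hn => ?_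
  · intro x hx y hy hxy e f he hf u v hu hv
    exact hind x hx y hy hxy e f (mul_ne_zero he.1 hf.1) (he.mul hf).2 u v hu hv
  rw [Set.Finite.mem_toFinset] at hn
  obtain ⟨h1, h2⟩ := hn
  refine ⟨h1, lt_of_lt_of_le h2 ?_⟩
  have h3 : {x : ℕ | x ∈ A ∧ Partner S (Real.exp ((N : ℝ) ^ c)) x (g.eval n)} ⊆
      ((A.filter fun x : ℕ => SPart S (Real.exp ((N : ℝ) ^ c)) x (g.eval n) :
        Finset ℕ) : Set ℕ) := by
    rintro x ⟨hx, hp⟩
    rw [Finset.mem_coe, Finset.mem_filter]
    exact ⟨hx, part_of hp⟩
  have h4 := Set.ncard_le_ncard h3 (Finset.finite_toSet _)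
  rw [Set.ncard_coe_finset] at h4
  exact_mod_cast h4

end Pool.Agent.Results.MP_be1fae_nt.ArbitrarySetsOfBases
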