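import Mathlib
import Pool.Agent.Helper82.SU.EqualMain

/-!
# Generalised Fermat equations `x ^ p ± y ^ p = c z ^ r` with an `S`-unit `c`, both exponents and `c` free

For all `s`, `R ≥ 2` and `δ > 0` there is `c₀ > 0` such that for `Y ≥ N ≥ N₀`, every set `S` of at most `s` primes
and EVERY box `(a, a + N] × (b, b + Y]` at most `(N Y) ^ (1 / R) N ^ δ` coprime pairs `(x, y)` of the box satisfy

`x ^ p - y ^ p = c z ^ r`, or `x ^ p + y ^ p = c z ^ r` with odd `p`,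

for some integers `c`, `z`, where the prime factors of `c` belong to `S`, some `p` with `x ^ p, y ^ p ≤ exp (N ^ c₀)`
and some `r` without prime factors smaller than `R`, `2 / p + 1 / r ≤ 1`. For `R = 2` the exponent `r` is arbitrary.

So for `R ≥ 3`, `N ≤ Y ≤ N ^ (R - 1 - η)` almost every integer `x` of every short interval `(a, a + N]`, all but
`N ^ (1 - η / R + δ)`, has the property that NO `y` of the interval `(b, b + Y]` works, for any `p`, `r` and any
`S`-unit `c`. The primes of `S` may be of any size and may depend on `N`; only their number is bounded.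

Proof. By descent `d (x ± y) = d' u w ^ r` with divisors `d`, `d'` of `p` and an `S`-unit `u`; these and the exponents
take at most `N ^ δ` values. So there are at most `N ^ δ Y ^ (1 / R)` possibilities for `x ± y`, and on each of these
lines the theorem on two bases given by polynomials (see the file `PolynomialBases`) gives at most
`N ^ (1 / R + δ)` pairs.
-/

set_option autoImplicit false

namespace Pool.Agent.Results.MP_be1fae_nt.EqualExponents

open Pool.Agent.Helper82.SU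

/-- all prime factors of `r` are at least `R` -/
def Rough (R r : ℕ) : Prop := ∀ l : ℕ, l.Prime → l ∣ r → R ≤ l

/-- `x` and `y` are two bases with the same exponent `p` of an equation `x ^ p - y ^ p = c z ^ r`, or
`x ^ p + y ^ p = c z ^ r` with odd `p`, where the prime factors of `c` belong to `S`, those of `r` are at least `R`,
`1/p + 1/p + 1/r ≤ 1` and `x ^ p, y ^ p ≤ W` -/
def EqualBases (S : Finset ℕ) (R : ℕ) (W : ℝ) (x y : ℕ) : Prop := ∃ (c z : ℤ) (p r : ℕ),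
  0 < p ∧ 0 < r ∧ (1 : ℚ) / p + 1 / p + 1 / r ≤ 1 ∧ Rough R r ∧ c ≠ 0 ∧
    (∀ l : ℕ, l.Prime → (l : ℤ) ∣ c → l ∈ S) ∧ z ≠ 0 ∧ (x : ℝ) ^ p ≤ W ∧ (y : ℝ) ^ p ≤ W ∧
    ((x : ℤ) ^ p - (y : ℤ) ^ p = c * z ^ r ∨ Odd p ∧ (x : ℤ) ^ p + (y : ℤ) ^ p = c * z ^ r)

lemma eq2_of {S : Finset ℕ} {R : ℕ} {W : ℝ} {x y : ℕ} (hx : 0 < x) (hy : 0 < y)
    (hxy : Nat.Coprime x y) (h : EqualBases S R W x y) : ∃ σ : ℤ, Eq2 S R (2 * W) σ x y := by
  obtain ⟨c, z, p, r, hp, hr, hle, hR, hc, hcS, hz, h1, h2, he⟩ := h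
  have hcop : IsCoprime (x : ℤ) (y : ℤ) := Nat.isCoprime_iff_coprime.mpr hxy
  have hW0 : 0 ≤ W := le_trans (by positivity) h1
  have key : ∀ σ : ℤ, (σ = 1 ∨ σ = -1 ∧ Odd p) → (x : ℤ) ^ p - (σ * y) ^ p = c * z ^ r →
      Eq2 S R (2 * W) σ x y := by
    intro σ hσ he
    have hσ' : σ = 1 ∨ σ = -1 := by
      rcases hσ with h | h
      · exact Or.inl h
      · exact Or.inr h.1
    have hσu : IsUnit σ := by rcases hσ' with rfl | rfl <;> simp
    have he' : 1 * (x : ℤ) ^ p + -1 * (σ * y) ^ p = c * z ^ r := by linear_combination he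
    refine ⟨c, z, p, r, hσ, sol_mk hp hp hr hle (by simpa using hc) ?_ (by exact_mod_cast hx.ne')
      (mul_ne_zero hσu.ne_zero (by exact_mod_cast hy.ne')) hz ?_ he', hR, by linarith, by linarith, ?_⟩
    · intro l hl hd
      refine hcS l hl ?_
      rwa [one_mul, neg_one_mul, dvd_neg] at hd
    · have h3 : IsCoprime (1 * (x : ℤ)) (-1 * (σ * y)) := by
        rw [one_mul, neg_one_mul, IsCoprime.neg_right_iff]
        exact (isCoprime_mul_unit_left_right hσu _ _).mpr hcop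
      have h4 := Int.isCoprime_iff_gcd_eq_one.1 h3
      refine Nat.dvd_one.1 ?_
      rw [← h4]
      exact Int.dvd_gcd (Int.gcd_dvd_left _ _)
        ((Int.gcd_dvd_right _ _).trans (Int.gcd_dvd_left _ _))
    · rw [← he]
      push_cast
      refine (abs_sub _ _).trans ?_
      rw [abs_pow, abs_pow, abs_mul, Nat.abs_cast, Nat.abs_cast]
      have h5 : |((σ : ℤ) : ℝ)| = 1 := by
        rcases hσ' with h | h <;> simp [h]
      rw [h5, one_mul]
      linarith
  rcases he with he | ⟨hodd, he⟩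
  · exact ⟨1, key 1 (Or.inl rfl) (by rw [one_mul]; exact he)⟩
  · refine ⟨-1, key (-1) (Or.inr ⟨rfl, hodd⟩) ?_⟩
    rw [mul_pow, hodd.neg_one_pow]
    linarith

/-- For all `s`, `R ≥ 2` and `δ > 0` there are `c₀ > 0` and `N₀` such that for `Y ≥ N ≥ N₀`, all `a`, `b` and all
sets `S` of at most `s` primes at most `(N Y) ^ (1 / R) N ^ δ` coprime pairs `(x, y)` of the box
`(a, a + N] × (b, b + Y]` are two bases with the same exponent `p`, `x ^ p, y ^ p ≤ exp (N ^ c₀)`, of an equation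
`x ^ p ± y ^ p = c z ^ r` with an `S`-unit `c` and an exponent `r` without prime factors smaller than `R`. -/
theorem result (s R : ℕ) (hR : 2 ≤ R) (δ : ℝ) (hδ : 0 < δ) : ∃ c₀ : ℝ, 0 < c₀ ∧ ∃ N₀ : ℕ,
    ∀ N Y a b : ℕ, N₀ ≤ N → N ≤ Y → ∀ S : Finset ℕ, S.card ≤ s →
      ({v : ℕ × ℕ | a < v.1 ∧ v.1 ≤ a + N ∧ b < v.2 ∧ v.2 ≤ b + Y ∧ Nat.Coprime v.1 v.2 ∧
        EqualBases S R (Real.exp ((N : ℝ) ^ c₀)) v.1 v.2}.ncard : ℝ) ≤
          ((N : ℝ) * Y) ^ (1 / (R : ℝ)) * (N : ℝ) ^ δ := by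
  classical
  obtain ⟨c, hc, N₀, h⟩ := sequal_main s R hR δ hδ
  obtain ⟨L₁, hL₁⟩ := Pool.Agent.N741.PB.ev_rpow (show 0 < c / 2 by positivity) 2
  refine ⟨c / 2, by positivity, N₀ + L₁ + 1, fun N Y a b hN hNY S hS => ?_⟩
  have hN0 : (0 : ℝ) < N := by exact_mod_cast (by omega : 0 < N)
  have hfin : {v : ℕ × ℕ | a < v.1 ∧ v.1 ≤ a + N ∧ b < v.2 ∧ v.2 ≤ b + Y ∧ Nat.Coprime v.1 v.2 ∧
        EqualBases S R (Real.exp ((N : ℝ) ^ (c / 2))) v.1 v.2}.Finite := by
    refine Set.Finite.subset (Finset.finite_toSet (Finset.Ioc a (a + N) ×ˢ Finset.Ioc b (b + Y))) ?_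
    rintro v ⟨h1, h2, h3, h4, -⟩
    rw [Finset.mem_coe, Finset.mem_product, Finset.mem_Ioc, Finset.mem_Ioc]
    exact ⟨⟨h1, h2⟩, h3, h4⟩
  rw [Set.ncard_eq_toFinset_card _ hfin]
  refine h N Y a b (by omega) hNY S hS _ (fun v hv => ?_)
  rw [Set.Finite.mem_toFinset] at hv
  obtain ⟨h1, h2, h3, h4, h5, h6⟩ := hv
  refine ⟨h1, h2, h3, h4, ?_⟩
  obtain ⟨σ, k, z, p, r, hσ, hs, hr, t1, t2, t3⟩ := eq2_of (by omega) (by omega) h5 h6
  have hW : 2 * Real.exp ((N : ℝ) ^ (c / 2)) ≤ Real.exp ((N : ℝ) ^ c) := by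
    have g1 := hL₁ N (by omega)
    have g2 : (N : ℝ) ^ c = (N : ℝ) ^ (c / 2) * (N : ℝ) ^ (c / 2) := by
      rw [← Real.rpow_add hN0]; congr 1; ring
    have g3 : (N : ℝ) ^ (c / 2) + 1 ≤ (N : ℝ) ^ c := by rw [g2]; nlinarith
    have g4 := Real.add_one_le_exp (1 : ℝ)
    calc 2 * Real.exp ((N : ℝ) ^ (c / 2)) ≤ Real.exp 1 * Real.exp ((N : ℝ) ^ (c / 2)) := by
          apply mul_le_mul_of_nonneg_right _ (Real.exp_pos _).le
          linarith
      _ = Real.exp ((N : ℝ) ^ (c / 2) + 1) := by rw [← Real.exp_add, add_comm]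
      _ ≤ _ := Real.exp_le_exp.2 g3
  exact ⟨σ, k, z, p, r, hσ, hs, hr, t1.trans hW, t2.trans hW, t3.trans hW⟩

end Pool.Agent.Results.MP_be1fae_nt.EqualExponents
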