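import Mathlib
import Pool.Agent.Helper82.SU.Gen

/-!
# Generalised Fermat equations with `S`-unit coefficients: bases generated by the values of given polynomials

Let `F_1, …, F_m` be integer polynomials in `d + 1` variables, for example one of them a polynomial and the others
constants. For how many integral vectors `t` in the box `[-N, N]^(d + 1)` are there `S`-solutions of
`a x ^ p + b y ^ q = c z ^ r` whose three bases `x`, `y`, `z` are, up to signs, in the multiplicative semigroup
generated by `F_1(t), …, F_m(t)`, a nonconstant polynomial `F_i` occurring in one of them? At most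
`C N ^ d (log N) ^ e` if only terms up to `exp ((log N) ^ K)` are considered. The generating exponents, the
exponents of the equation and the `S`-unit coefficients are free. The numbers `C`, `e` depend only on `m`, `d`,
`K` and the NUMBER of the primes in `S`; the primes may be of any size, the polynomials may depend on `N`, and
nothing is assumed on their coefficients. The degrees may be as large as `(log N) ^ K`. The exponent `d` cannot be
replaced by a smaller one (and the condition on a nonconstant polynomial cannot be omitted): a polynomial can take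
the same value `x` on a hyperplane.

Proof. There are `(log N) ^ O(1)` possible coefficients, exponents of the equation and exponents of the generators.
For each of them the vectors `t` are zeros of a polynomial of small degree, and this is not the zero polynomial
on the lines on which the bases are not constant, by Mason's theorem, or the two bases have a common factor on the
line and are coprime for few integers only.
-/

set_option autoImplicit false

namespace Pool.Agent.Results.MP_be1fae_nt.GeneratedTriples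

open MvPolynomial Pool.Agent.Helper82.SU

/-- `S`-solutions of `a x ^ p + b y ^ q = c z ^ r` (with `1/p + 1/q + 1/r ≤ 1`) -/
def Solution (S : Finset ℕ) (a b c x y z : ℤ) (p q r : ℕ) : Prop :=
  0 < p ∧ 0 < q ∧ 0 < r ∧ (1 : ℚ) / p + 1 / q + 1 / r ≤ 1 ∧ a * b * c ≠ 0 ∧
    (∀ l : ℕ, l.Prime → (l : ℤ) ∣ a * b * c → l ∈ S) ∧ x ≠ 0 ∧ y ≠ 0 ∧ z ≠ 0 ∧
    Int.gcd (a * x) (Int.gcd (b * y) (c * z)) = 1 ∧ a * x ^ p + b * y ^ q = c * z ^ r

/-- there is an `S`-solution with terms at most `W` whose three bases are, up to signs, products of powers of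
the numbers `F i (t)`, and one of these is the value of a nonconstant polynomial -/
def Generated {m n : ℕ} (S : Finset ℕ) (W : ℝ) (F : Fin m → MvPolynomial (Fin n) ℤ)
    (t : Fin n → ℤ) : Prop :=
  ∃ (a b c x y z : ℤ) (p q r : ℕ) (α β γ : Fin m → ℕ), Solution S a b c x y z p q r ∧
    |((a * x ^ p : ℤ) : ℝ)| ≤ W ∧ |((b * y ^ q : ℤ) : ℝ)| ≤ W ∧ |((c * z ^ r : ℤ) : ℝ)| ≤ W ∧
    |x| = |∏ i, eval t (F i) ^ α i| ∧ |y| = |∏ i, eval t (F i) ^ β i| ∧
    |z| = |∏ i, eval t (F i) ^ γ i| ∧ ∃ i, 0 < (F i).totalDegree ∧ 0 < α i + β i + γ i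

/-- For all `m`, `d`, `K`, `s` there are `C`, `e` such that for all `N ≥ 3`, all sets `S` of at most `s` primes
and all integer polynomials `F_1, …, F_m` in `d + 1` variables of degree at most `(log N) ^ K`, at most
`C N ^ d (log N) ^ e` integral vectors `t` in the box `[-N, N] ^ (d + 1)` are such that there is an `S`-solution
with terms at most `exp ((log N) ^ K)` whose three bases are products of powers of the numbers `F_i(t)`. -/
theorem result (m d K s : ℕ) : ∃ C e : ℕ, ∀ N : ℕ, 3 ≤ N → ∀ S : Finset ℕ, S.card ≤ s →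
    ∀ F : Fin m → MvPolynomial (Fin (d + 1)) ℤ,
      (∀ i, ((F i).totalDegree : ℝ) ≤ Real.log N ^ K) →
      ({t : Fin (d + 1) → ℤ | (∀ j, |t j| ≤ (N : ℤ)) ∧
        Generated S (Real.exp (Real.log N ^ K)) F t}.ncard : ℝ) ≤ C * (N : ℝ) ^ d * Real.log N ^ e := by
  obtain ⟨C, e, h⟩ := sgen_box m d K s
  refine ⟨C, e, fun N hN S hS F hF => le_trans ?_ (h N hN S hS F hF)⟩
  have hsub : {t : Fin (d + 1) → ℤ | (∀ j, |t j| ≤ (N : ℤ)) ∧
        Generated S (Real.exp (Real.log N ^ K)) F t} ⊆
      {t : Fin (d + 1) → ℤ | (∀ j, |t j| ≤ (N : ℤ)) ∧ ∃ α β γ : Fin m → ℕ,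
        (∃ i, 0 < (F i).totalDegree ∧ 0 < α i + β i + γ i) ∧
        WTri S (Real.exp (Real.log N ^ K)) (∏ i, eval t (F i) ^ α i) (∏ i, eval t (F i) ^ β i)
          (∏ i, eval t (F i) ^ γ i)} := by
    rintro t ⟨h1, a, b, k, x, y, z, p, q, r, α, β, γ,
      ⟨hp, hq, hr, hle, habc, hSS, hx, hy, hz, hg, he⟩, t1, t2, t3, u1, u2, u3, h2⟩
    refine ⟨h1, α, β, γ, h2, ?_⟩
    obtain ⟨a', b', c', s1, e1, e2, e3⟩ :=
      (sol_mk hp hq hr hle habc hSS hx hy hz hg he).bases3 u1 u2 u3
    exact ⟨a', b', c', p, q, r, s1, by rw [e1]; exact t1, by rw [e2]; exact t2,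
      by rw [e3]; exact t3⟩
  have hfin := Pool.Agent.N741.PB.box_finite (N := N) (fun t : Fin (d + 1) → ℤ =>
      ∃ α β γ : Fin m → ℕ, (∃ i, 0 < (F i).totalDegree ∧ 0 < α i + β i + γ i) ∧
        WTri S (Real.exp (Real.log N ^ K)) (∏ i, eval t (F i) ^ α i) (∏ i, eval t (F i) ^ β i)
          (∏ i, eval t (F i) ^ γ i))
  exact_mod_cast Set.ncard_le_ncard hsub hfin

end Pool.Agent.Results.MP_be1fae_nt.GeneratedTriples
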