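import Mathlib
import Pool.Agent.Helper82.SU.PairMain
import Pool.Agent.Helper82.SU.Perm

/-!
# Generalised Fermat equations with `S`-unit coefficients: two bases given by polynomials, uniformly in `S`

Let `F`, `G` be integer polynomials in `d + 1` variables, not both constant. The vectors `t` in the box
`[-N, N]^(d + 1)` for which `± F(t)` and `± G(t)` are two of the three bases of an `S`-solution of
`a x ^ p + b y ^ q = c z ^ r` with terms at most `exp (N ^ c)` are at most `N ^ (d + 1/2 + δ)` in number, and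
at most `N ^ (d + 1/R + δ)` if only those solutions are considered in which the exponent of the third base
has no prime factor smaller than `R`. All exponents, all coefficients and the third base are free. The
constants `c` and `N₀` depend only on `d`, `R`, `δ` and the NUMBER of the primes in `S`: the primes
themselves may be as large as `exp (N ^ c)`, and they may vary with `N`. The degrees of the polynomials may
be as large as `N ^ c`, and nothing is assumed on their coefficients (the values at the `t` counted are at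
most `exp (N ^ c)`).

Proof. A set `S` of `s` primes has `O(T ^ s)` `S`-units below `2 ^ T`. On a line the equation with given
coefficients, given exponents `p`, `q` and a given prime factor `r` of the third exponent says that
`c ^ (r - 1) (a f(n) ^ p + b g(n) ^ q)` is an `r`-th power. The polynomial is not a constant multiple of an
`r`-th power of a polynomial, by Mason's theorem with constants if `f` and `g` are coprime, and by the
coprimality of the values otherwise; so the theorem on power values of polynomials of large degree and with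
large coefficients of the starting library (`N741.PB.primes_count`, determinant method) applies.
-/

set_option autoImplicit false

namespace Pool.Agent.Results.MP_be1fae_nt.PolynomialBases

open MvPolynomial Pool.Agent.Helper82.SU

/-- `S`-solutions of `a x ^ p + b y ^ q = c z ^ r` (with `1/p + 1/q + 1/r ≤ 1`) -/
def Solution (S : Finset ℕ) (a b c x y z : ℤ) (p q r : ℕ) : Prop :=
  0 < p ∧ 0 < q ∧ 0 < r ∧ (1 : ℚ) / p + 1 / q + 1 / r ≤ 1 ∧ a * b * c ≠ 0 ∧
    (∀ l : ℕ, l.Prime → (l : ℤ) ∣ a * b * c → l ∈ S) ∧ x ≠ 0 ∧ y ≠ 0 ∧ z ≠ 0 ∧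
    Int.gcd (a * x) (Int.gcd (b * y) (c * z)) = 1 ∧ a * x ^ p + b * y ^ q = c * z ^ r

/-- all prime factors of `r` are at least `R` -/
def Rough (R r : ℕ) : Prop := ∀ l : ℕ, l.Prime → l ∣ r → R ≤ l

/-- `± u` and `± v` are two of the bases of an `S`-solution whose terms are at most `W` in absolute
value, and all prime factors of the exponent of the third base are at least `R` (no condition for
`R ≤ 2`) -/
def TwoBases (S : Finset ℕ) (R : ℕ) (W : ℝ) (u v : ℤ) : Prop :=
  ∃ (a b c x y z : ℤ) (p q r : ℕ), Solution S a b c x y z p q r ∧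
    |((a * x ^ p : ℤ) : ℝ)| ≤ W ∧ |((b * y ^ q : ℤ) : ℝ)| ≤ W ∧ |((c * z ^ r : ℤ) : ℝ)| ≤ W ∧
    ((|x| = |u| ∧ |y| = |v| ∧ Rough R r) ∨ (|y| = |u| ∧ |x| = |v| ∧ Rough R r) ∨
      (|x| = |u| ∧ |z| = |v| ∧ Rough R q) ∨ (|z| = |u| ∧ |x| = |v| ∧ Rough R q) ∨
      (|y| = |u| ∧ |z| = |v| ∧ Rough R p) ∨ (|z| = |u| ∧ |y| = |v| ∧ Rough R p))

/-- For all `d`, `s`, `R ≥ 2` and `δ > 0` there is `c > 0` such that for all large `N`, all sets `S` of at
most `s` primes (of any size) and all integer polynomials `F`, `G` in `d + 1` variables, not both constant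
and of degree at most `N ^ c`, at most `N ^ (d + 1 / R + δ)` integral vectors `t` in the box
`[-N, N] ^ (d + 1)` have the property that `± F(t)` and `± G(t)` are two bases of an `S`-solution with terms at
most `exp (N ^ c)` and a third exponent without prime factors smaller than `R`. -/
theorem result (d s R : ℕ) (hR : 2 ≤ R) (δ : ℝ) (hδ : 0 < δ) : ∃ c : ℝ, 0 < c ∧ ∃ N₀ : ℕ,
    ∀ N : ℕ, N₀ ≤ N → ∀ S : Finset ℕ, S.card ≤ s → ∀ F G : MvPolynomial (Fin (d + 1)) ℤ,
      (0 < F.totalDegree ∨ 0 < G.totalDegree) →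
      (F.totalDegree : ℝ) ≤ (N : ℝ) ^ c → (G.totalDegree : ℝ) ≤ (N : ℝ) ^ c →
      ({t : Fin (d + 1) → ℤ | (∀ i, |t i| ≤ (N : ℤ)) ∧
        TwoBases S R (Real.exp ((N : ℝ) ^ c)) (eval t F) (eval t G)}.ncard : ℝ) ≤
          (N : ℝ) ^ ((d : ℝ) + 1 / (R : ℝ) + δ) := by
  obtain ⟨c, hc, N₀, h⟩ := spair_main d s R hR δ hδ
  refine ⟨c, hc, N₀, fun N hN S hS F G hFG hF hG => le_trans ?_ (h N hN S hS F G hFG hF hG)⟩
  have hsub : {t : Fin (d + 1) → ℤ | (∀ i, |t i| ≤ (N : ℤ)) ∧
      TwoBases S R (Real.exp ((N : ℝ) ^ c)) (eval t F) (eval t G)} ⊆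
      {t : Fin (d + 1) → ℤ | (∀ i, |t i| ≤ (N : ℤ)) ∧
        SPair S R (Real.exp ((N : ℝ) ^ c)) (eval t F) (eval t G)} := by
    rintro t ⟨h1, a, b, k, x, y, z, p, q, r, ⟨hp, hq, hr, hle, habc, hSS, hx, hy, hz, hg, he⟩,
      t1, t2, t3, h2⟩
    refine ⟨h1, ?_⟩
    obtain ⟨a', b', c', w, l', m', r', s1, s2, s3, s4, s5⟩ :=
      (sol_mk hp hq hr hle habc hSS hx hy hz hg he).pair t1 t2 t3 h2
    exact ⟨a', b', c', w, l', m', r', s1, s2, s3, s4, s5⟩
  have hfin := Pool.Agent.N741.PB.box_finite (N := N) (fun t : Fin (d + 1) → ℤ =>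
      SPair S R (Real.exp ((N : ℝ) ^ c)) (eval t F) (eval t G))
  exact_mod_cast Set.ncard_le_ncard hsub hfin

end Pool.Agent.Results.MP_be1fae_nt.PolynomialBases
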